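import Pool.Agent.Run7.h699.Fan.Cp

/-! # Every forcing preserves II's winning strategies in the strong fan tightness game on `C_p(X)` -/

namespace Pool.Agent.Results.MP_abf503_lc.FunctionSpacesEveryForcing

open Pool.Agent.Helper669.Forcing
open Pool.Agent.Run7.h699.Fan

universe u v

/-- Let `P` be any notion of forcing and `X` a topological space. If II has a winning strategy in
the strong countable fan tightness game at one point `g` of `C_p(X)`, then every condition forces
that II has a winning strategy at every point `f` of the ground model space `C_p(X)`, with the
topology that has the ground model topology as a base. -/
theorem result (P : Type u) [Preorder P] (X : Type v) [TopologicalSpace X] (g : Cp X)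
    (h : IIWins g) : ∀ p : P, p ∈ fall fun f : Cp X => fIIWins (P := P) f :=
  fun p f => preserved (h.translate f) p

end Pool.Agent.Results.MP_abf503_lc.FunctionSpacesEveryForcing
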